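import Mathlib

/-!
# The Stone space of the clopen algebra of a sick compactum is sick

Let `K` be sick: `T : C(K) → E` identifies `C(K)` with the principal ideal `E_u` of a separable
Banach lattice.  The functions of `C(K)` which factor through `K → St(Clop K)` form a sublattice
`A`; let `F` be its closure in `E`.  We show `F ∩ E_u = A`.
-/

set_option autoImplicit false

open Set Topology Filter

namespace Pool.Agent.Results.MP_013c33_an.StoneSpaceSick

universe u v

/-- The compact space `K` is sick: there are a separable Banach lattice `E`, an element `x ≥ 0` of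
`E` and an injective linear map `T : C(K) → E` preserving the lattice operations with `T 1 = x`,
whose range is the principal ideal `E_x = {y : |y| ≤ r x for some r > 0}`. -/
def IsSick (K : Type u) [TopologicalSpace K] [CompactSpace K] : Prop :=
  ∃ (E : Type v) (_ : NormedAddCommGroup E) (_ : NormedSpace ℝ E) (_ : Lattice E)
    (_ : IsOrderedAddMonoid E) (_ : PosSMulMono ℝ E) (_ : HasSolidNorm E) (_ : CompleteSpace E)
    (_ : TopologicalSpace.SeparableSpace E) (x : E) (T : C(K, ℝ) →ₗ[ℝ] E),
    0 ≤ x ∧ Function.Injective T ∧ (∀ f g, T (f ⊔ g) = T f ⊔ T g) ∧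
    (∀ f g, T (f ⊓ g) = T f ⊓ T g) ∧ T 1 = x ∧ range T = {y : E | ∃ r : ℝ, 0 < r ∧ |y| ≤ r • x}

/-- The Stone space of a Boolean algebra `B`: the set of ultrafilters of `B`, an ultrafilter being
given by its characteristic function `B → Bool`, with the topology of pointwise convergence (the
topology generated by the sets of all ultrafilters containing a given element of `B`). -/
def StoneSpace (B : Type u) [BooleanAlgebra B] : Type u :=
  {x : B → Bool // x ⊤ = true ∧ (∀ a b, x (a ⊓ b) = (x a && x b)) ∧ ∀ a, x aᶜ = !(x a)}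

instance (B : Type u) [BooleanAlgebra B] : TopologicalSpace (StoneSpace B) :=
  inferInstanceAs (TopologicalSpace
    {x : B → Bool // x ⊤ = true ∧ (∀ a b, x (a ⊓ b) = (x a && x b)) ∧ ∀ a, x aᶜ = !(x a)})

instance (B : Type u) [BooleanAlgebra B] : T2Space (StoneSpace B) :=
  inferInstanceAs (T2Space
    {x : B → Bool // x ⊤ = true ∧ (∀ a b, x (a ⊓ b) = (x a && x b)) ∧ ∀ a, x aᶜ = !(x a)})

instance (B : Type u) [BooleanAlgebra B] : TotallyDisconnectedSpace (StoneSpace B) :=
  inferInstanceAs (TotallyDisconnectedSpace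
    {x : B → Bool // x ⊤ = true ∧ (∀ a b, x (a ⊓ b) = (x a && x b)) ∧ ∀ a, x aᶜ = !(x a)})

instance (B : Type u) [BooleanAlgebra B] : CompactSpace (StoneSpace B) := by
  have h : IsClosed {x : B → Bool | x ⊤ = true ∧ (∀ a b, x (a ⊓ b) = (x a && x b)) ∧
      ∀ a, x aᶜ = !(x a)} := by
    have h1 : IsClosed {x : B → Bool | x ⊤ = true} :=
      isClosed_eq (continuous_apply _) continuous_const
    have h2 : IsClosed {x : B → Bool | ∀ a b, x (a ⊓ b) = (x a && x b)} := by
      simp only [ofPred_forall]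
      refine isClosed_iInter fun a => isClosed_iInter fun b => isClosed_eq (continuous_apply _) ?_
      have hand : Continuous fun p : Bool × Bool => (p.1 && p.2) := continuous_of_discreteTopology
      have hpair : Continuous fun x : B → Bool => (x a, x b) :=
        (continuous_apply a).prodMk (continuous_apply b)
      exact hand.comp hpair
    have h3 : IsClosed {x : B → Bool | ∀ a, x aᶜ = !(x a)} := by
      simp only [ofPred_forall]
      refine isClosed_iInter fun a => isClosed_eq (continuous_apply _) ?_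
      have hnot : Continuous fun p : Bool => !p := continuous_of_discreteTopology
      exact hnot.comp (continuous_apply a)
    exact h1.inter (h2.inter h3)
  exact isCompact_iff_compactSpace.1 h.isCompact

section quot

variable (K : Type u) [TopologicalSpace K]

theorem mem_top (p : K) : p ∈ (⊤ : TopologicalSpace.Clopens K) := trivial

theorem mem_inf (p : K) (a b : TopologicalSpace.Clopens K) : p ∈ a ⊓ b ↔ p ∈ a ∧ p ∈ b := Iff.rfl

theorem mem_compl (p : K) (a : TopologicalSpace.Clopens K) : p ∈ aᶜ ↔ ¬ p ∈ a := Iff.rfl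

open Classical in
/-- The canonical map of `K` to the Stone space of its clopen algebra. -/
noncomputable def toStone : K → StoneSpace (TopologicalSpace.Clopens K) := fun p =>
  ⟨fun b => decide (p ∈ b), by simp [mem_top], fun a b => by simp [mem_inf], fun a => by
    simp [mem_compl]⟩

theorem toStone_apply (p : K) (b : TopologicalSpace.Clopens K) :
    (toStone K p).1 b = true ↔ p ∈ b := by
  simp [toStone]

open Classical in
theorem continuous_toStone : Continuous (toStone K) := by
  refine Continuous.subtype_mk (continuous_pi fun b => ?_) _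
  rw [continuous_bool_rng true]
  have : (fun p => decide (p ∈ b)) ⁻¹' {true} = (b : Set K) := by
    ext p
    simp
  rw [this]
  exact b.isClopen

theorem surjective_toStone [CompactSpace K] : Function.Surjective (toStone K) := by
  intro x
  let ι := {b : TopologicalSpace.Clopens K // x.1 b = true}
  have hbot : x.1 ⊥ = false := by
    have h := x.2.2.2 ⊤
    rw [compl_top, x.2.1] at h
    simpa using h
  have : Nonempty ι := ⟨⟨⊤, x.2.1⟩⟩
  obtain ⟨p, hp⟩ := IsCompact.nonempty_iInter_of_directed_nonempty_isCompact_isClosed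
    (fun b : ι => (b.1 : Set K)) (fun b c => ⟨⟨b.1 ⊓ c.1, by rw [x.2.2.1, b.2, c.2]; rfl⟩,
      inter_subset_left, inter_subset_right⟩) (fun b => by
        by_contra h
        rw [not_nonempty_iff_eq_empty] at h
        have h2 : b.1 = ⊥ := SetLike.coe_injective h
        have h3 := b.2
        rw [h2, hbot] at h3
        simp at h3) (fun b => b.1.isClopen.isClosed.isCompact) (fun b => b.1.isClopen.isClosed)
  rw [mem_iInter] at hp
  refine ⟨p, Subtype.ext (funext fun b => ?_)⟩
  rcases hb : x.1 b with _ | _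
  · have h1 : x.1 bᶜ = true := by rw [x.2.2.2, hb]; rfl
    have h2 : p ∈ bᶜ := hp ⟨bᶜ, h1⟩
    have h3 : ¬ (toStone K p).1 b = true := by
      rw [toStone_apply]
      exact h2
    simpa using h3
  · exact (toStone_apply K p b).2 (hp ⟨b, hb⟩)

end quot

section lat

variable {E : Type v} [NormedAddCommGroup E] [NormedSpace ℝ E] [Lattice E] [IsOrderedAddMonoid E]
  [HasSolidNorm E]
variable {K : Type u} [TopologicalSpace K] [CompactSpace K] (T : C(K, ℝ) →ₗ[ℝ] E)
  (hsup : ∀ f g, T (f ⊔ g) = T f ⊔ T g)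

include hsup

theorem T_mono {f g : C(K, ℝ)} (h : f ≤ g) : T f ≤ T g := by
  have h1 : f ⊔ g = g := sup_eq_right.2 h
  have h2 := hsup f g
  rw [h1] at h2
  rw [h2]
  exact le_sup_left

theorem T_nonneg {f : C(K, ℝ)} (h : 0 ≤ f) : 0 ≤ T f := by
  have := T_mono T hsup h
  rwa [map_zero] at this

theorem T_abs (f : C(K, ℝ)) : |T f| = T |f| := by
  have h1 : |f| = f ⊔ -f := rfl
  have h2 : |T f| = T f ⊔ -(T f) := rfl
  rw [h1, h2, hsup, map_neg]

theorem norm_T_le_of_le {f g : C(K, ℝ)} (h : |f| ≤ |g|) : ‖T f‖ ≤ ‖T g‖ := by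
  apply norm_le_norm_of_abs_le_abs
  rw [T_abs T hsup, T_abs T hsup]
  exact T_mono T hsup h

end lat

/-- The characteristic function of a clopen set. -/
noncomputable def chi {K : Type u} [TopologicalSpace K] (b : TopologicalSpace.Clopens K) :
    C(K, ℝ) :=
  ⟨indicator (b : Set K) 1, (IsClopen.continuous_indicator b.isClopen continuous_const)⟩

theorem chi_mem {K : Type u} [TopologicalSpace K] {b : TopologicalSpace.Clopens K} {p : K}
    (h : p ∈ b) : chi b p = 1 := indicator_of_mem (s := (b : Set K)) h 1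

theorem chi_not_mem {K : Type u} [TopologicalSpace K] {b : TopologicalSpace.Clopens K} {p : K}
    (h : ¬ p ∈ b) : chi b p = 0 := indicator_of_notMem (s := (b : Set K)) h 1

/-- clopen separation of the level sets of a function factoring through the Stone space -/
theorem level {K : Type u} [TopologicalSpace K]
    (g : C(StoneSpace (TopologicalSpace.Clopens K), ℝ)) {s t : ℝ} (hst : s < t) :
    ∃ b : TopologicalSpace.Clopens K, (∀ p, t ≤ g (toStone K p) → p ∈ b) ∧
      ∀ p, p ∈ b → s < g (toStone K p) := by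
  obtain ⟨C, hC, h1, h2⟩ := exists_clopen_of_closed_subset_open
    (Z := {x | t ≤ g x}) (U := {x | s < g x}) (isClosed_le continuous_const g.continuous)
    (isOpen_lt continuous_const g.continuous) (fun x hx => lt_of_lt_of_le hst hx)
  exact ⟨⟨toStone K ⁻¹' C, hC.preimage (continuous_toStone K)⟩, fun p hp => h1 hp,
    fun p hp => h2 hp⟩

/-- the composition with the canonical map -/
noncomputable def pull (K : Type u) [TopologicalSpace K] :
    C(StoneSpace (TopologicalSpace.Clopens K), ℝ) →ₗ[ℝ] C(K, ℝ) where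
  toFun := fun g => g.comp ⟨toStone K, continuous_toStone K⟩
  map_add' := fun _ _ => rfl
  map_smul' := fun _ _ => rfl

theorem pull_apply {K : Type u} [TopologicalSpace K]
    (g : C(StoneSpace (TopologicalSpace.Clopens K), ℝ)) (p : K) :
    pull K g p = g (toStone K p) := rfl

section main

variable {E : Type v} [NormedAddCommGroup E] [NormedSpace ℝ E] [Lattice E] [IsOrderedAddMonoid E]
  [HasSolidNorm E] [CompleteSpace E]
variable {K : Type u} [TopologicalSpace K] [CompactSpace K] (T : C(K, ℝ) →ₗ[ℝ] E)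
  (hinj : Function.Injective T)
  (hsup : ∀ f g, T (f ⊔ g) = T f ⊔ T g) (hinf : ∀ f g, T (f ⊓ g) = T f ⊓ T g)
  (hr : range T = {y : E | ∃ r : ℝ, 0 < r ∧ |y| ≤ r • T 1})

include hsup in
theorem clopen_sequence (f : C(K, ℝ)) (hf : T f ∈ closure (range fun g => T (pull K g)))
    {s t : ℝ} (hst : s < t) :
    ∃ (F : ℕ → C(K, ℝ)) (b : ℕ → TopologicalSpace.Clopens K),
      Tendsto (fun n => T (F n)) atTop (𝓝 (T f)) ∧ CauchySeq (fun n => T (chi (b n))) ∧
      (∀ n p, t ≤ F n p → p ∈ b n) ∧ ∀ n p, p ∈ b n → s < F n p := by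
  obtain ⟨η, hη⟩ : ∃ η, η = (t - s) / 4 := ⟨_, rfl⟩
  have hη0 : 0 < η := by rw [hη]; linarith
  have hg : ∀ j : ℕ, ∃ g : C(StoneSpace (TopologicalSpace.Clopens K), ℝ),
      ‖T (pull K g) - T f‖ < (1 / 8 : ℝ) ^ j := by
    intro j
    obtain ⟨y, ⟨g, rfl⟩, hy⟩ := Metric.mem_closure_iff.1 hf ((1 / 8 : ℝ) ^ j) (by positivity)
    refine ⟨g, ?_⟩
    rw [← dist_eq_norm, dist_comm]
    exact hy
  choose g hg using hg
  obtain ⟨F, hF⟩ : ∃ F : ℕ → C(K, ℝ), F = fun n => pull K (g n) := ⟨_, rfl⟩
  have hq : ∀ n : ℕ, 0 < η * (1 / 2 : ℝ) ^ n := fun n => by positivity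
  have hq1 : ∀ n : ℕ, η * (1 / 2 : ℝ) ^ n ≤ η := fun n => by
    have : (1 / 2 : ℝ) ^ n ≤ 1 := pow_le_one₀ (by norm_num) (by norm_num)
    nlinarith
  have hc : ∀ n : ℕ, ∃ c : TopologicalSpace.Clopens K,
      (∀ p, t - η * (1 / 2 : ℝ) ^ n ≤ F n p → p ∈ c) ∧
      ∀ p, p ∈ c → t - η * (1 / 2 : ℝ) ^ n - η * (1 / 2 : ℝ) ^ n / 2 < F n p := by
    intro n
    obtain ⟨c, h1, h2⟩ := level (g n) (s := t - η * (1 / 2 : ℝ) ^ n - η * (1 / 2 : ℝ) ^ n / 2)
      (t := t - η * (1 / 2 : ℝ) ^ n) (by linarith [hq n])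
    exact ⟨c, fun p hp => h1 p (by simpa [hF, pull_apply] using hp),
      fun p hp => by simpa [hF, pull_apply] using h2 p hp⟩
  have hd : ∀ n : ℕ, ∃ d : TopologicalSpace.Clopens K,
      (∀ p, F n p ≤ s + η * (1 / 2 : ℝ) ^ n → p ∈ d) ∧
      ∀ p, p ∈ d → F n p < s + η * (1 / 2 : ℝ) ^ n + η * (1 / 2 : ℝ) ^ n / 2 := by
    intro n
    obtain ⟨d, h1, h2⟩ := level (-(g n)) (s := -(s + η * (1 / 2 : ℝ) ^ n + η * (1 / 2 : ℝ) ^ n / 2))
      (t := -(s + η * (1 / 2 : ℝ) ^ n)) (by linarith [hq n])
    refine ⟨d, fun p hp => h1 p ?_, fun p hp => ?_⟩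
    · show _ ≤ -(g n (toStone K p))
      have : g n (toStone K p) ≤ s + η * (1 / 2 : ℝ) ^ n := by simpa [hF, pull_apply] using hp
      linarith
    · have h3 : _ < -(g n (toStone K p)) := h2 p hp
      have h4 : F n p = g n (toStone K p) := by rw [hF]; rfl
      rw [h4]
      linarith
  choose c hc1 hc2 using hc
  choose d hd1 hd2 using hd
  let b : ℕ → TopologicalSpace.Clopens K := fun n =>
    Nat.rec (c 0) (fun n x => (x ⊔ c (n + 1)) ⊓ (d (n + 1))ᶜ) n
  have hb0 : b 0 = c 0 := rfl
  have hbs : ∀ n, b (n + 1) = (b n ⊔ c (n + 1)) ⊓ (d (n + 1))ᶜ := fun n => rfl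
  have hmem : ∀ n p, p ∈ b (n + 1) ↔ (p ∈ b n ∨ p ∈ c (n + 1)) ∧ ¬ p ∈ d (n + 1) := by
    intro n p
    rw [hbs]
    exact Iff.rfl
  have hP : ∀ n, (∀ p, t - η * (1 / 2 : ℝ) ^ n ≤ F n p → p ∈ b n) ∧
      ∀ p, p ∈ b n → s + η * (1 / 2 : ℝ) ^ n < F n p := by
    intro n
    rcases n with _ | n
    · refine ⟨fun p hp => hc1 0 p hp, fun p hp => ?_⟩
      have h1 := hc2 0 p hp
      simp only [pow_zero, mul_one] at h1 ⊢
      linarith
    · refine ⟨fun p hp => ?_, fun p hp => ?_⟩
      · rw [hmem]
        refine ⟨Or.inr (hc1 (n + 1) p hp), fun h => ?_⟩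
        have h1 := hd2 (n + 1) p h
        have h2 := hq1 (n + 1)
        linarith
      · rw [hmem] at hp
        by_contra h
        exact hp.2 (hd1 (n + 1) p (not_lt.1 h))
  have hdiff : ∀ n, |chi (b n) - chi (b (n + 1))| ≤
      |(2 / (η * (1 / 2 : ℝ) ^ (n + 1))) • (F n - F (n + 1))| := by
    intro n p
    have hpos := hq (n + 1)
    have hpow : η * (1 / 2 : ℝ) ^ n = 2 * (η * (1 / 2 : ℝ) ^ (n + 1)) := by ring
    show |chi (b n) p - chi (b (n + 1)) p| ≤
      |(2 / (η * (1 / 2 : ℝ) ^ (n + 1))) * (F n p - F (n + 1) p)|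
    have key : ∀ x y : ℝ, η * (1 / 2 : ℝ) ^ (n + 1) / 2 ≤ |x - y| →
        1 ≤ |(2 / (η * (1 / 2 : ℝ) ^ (n + 1))) * (x - y)| := by
      intro x y hxy
      rw [abs_mul, abs_of_pos (by positivity), div_mul_eq_mul_div, le_div_iff₀ hpos]
      linarith
    by_cases h1 : p ∈ b n
    · by_cases h2 : p ∈ b (n + 1)
      · rw [chi_mem h1, chi_mem h2, sub_self, abs_zero]
        exact abs_nonneg _
      · rw [chi_mem h1, chi_not_mem h2, sub_zero, abs_one]
        apply key
        rw [hmem] at h2
        have h3 : p ∈ d (n + 1) := by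
          by_contra h
          exact h2 ⟨Or.inl h1, h⟩
        have h4 := hd2 (n + 1) p h3
        have h5 := (hP n).2 p h1
        rw [hpow] at h5
        rw [le_abs]
        left
        linarith
    · by_cases h2 : p ∈ b (n + 1)
      · rw [chi_not_mem h1, chi_mem h2, zero_sub, abs_neg, abs_one]
        apply key
        have h3 : p ∈ c (n + 1) := by
          rcases ((hmem n p).1 h2).1 with h | h
          · exact absurd h h1
          · exact h
        have h4 := hc2 (n + 1) p h3
        have h5 : F n p < t - η * (1 / 2 : ℝ) ^ n := by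
          by_contra h
          exact h1 ((hP n).1 p (not_lt.1 h))
        rw [hpow] at h5
        rw [le_abs]
        right
        linarith
      · rw [chi_not_mem h1, chi_not_mem h2, sub_self, abs_zero]
        exact abs_nonneg _
  refine ⟨F, b, ?_, ?_, fun n p hp => (hP n).1 p (by linarith [hq n]),
    fun n p hp => by linarith [hq n, (hP n).2 p hp]⟩
  · rw [tendsto_iff_norm_sub_tendsto_zero]
    refine squeeze_zero (fun n => norm_nonneg _) (fun n => ?_)
      (tendsto_pow_atTop_nhds_zero_of_lt_one (r := (1 / 8 : ℝ)) (by norm_num) (by norm_num))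
    rw [hF]
    exact (hg n).le
  · refine cauchySeq_of_le_geometric (1 / 4 : ℝ) (8 / η) (by norm_num) fun n => ?_
    rw [dist_eq_norm, ← map_sub]
    refine (norm_T_le_of_le T hsup (hdiff n)).trans ?_
    rw [map_smul, norm_smul, map_sub]
    have h1 : ‖T (F n) - T (F (n + 1))‖ ≤ 2 * (1 / 8 : ℝ) ^ n := by
      have h2 := norm_sub_le (T (F n) - T f) (T (F (n + 1)) - T f)
      rw [sub_sub_sub_cancel_right] at h2
      have h3 : ‖T (F n) - T f‖ < (1 / 8 : ℝ) ^ n := by rw [hF]; exact hg n
      have h4 : ‖T (F (n + 1)) - T f‖ < (1 / 8 : ℝ) ^ (n + 1) := by rw [hF]; exact hg (n + 1)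
      have h5 : (1 / 8 : ℝ) ^ (n + 1) ≤ (1 / 8 : ℝ) ^ n :=
        pow_le_pow_of_le_one (by norm_num) (by norm_num) (Nat.le_succ n)
      linarith
    have hpos := hq (n + 1)
    rw [Real.norm_eq_abs, abs_of_pos (by positivity)]
    calc 2 / (η * (1 / 2 : ℝ) ^ (n + 1)) * ‖T (F n) - T (F (n + 1))‖
        ≤ 2 / (η * (1 / 2 : ℝ) ^ (n + 1)) * (2 * (1 / 8 : ℝ) ^ n) :=
          mul_le_mul_of_nonneg_left h1 (by positivity)
      _ = 8 / η * (1 / 4) ^ n := by
        have e1 : (1 / 8 : ℝ) ^ n = (1 / 4) ^ n * (1 / 2) ^ n := by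
          rw [← mul_pow]; norm_num
        rw [e1, pow_succ]
        field_simp
        ring

include hinj hsup hinf hr in
theorem separate (f : C(K, ℝ)) (hf : T f ∈ closure (range fun g => T (pull K g)))
    {p q : K} (hpq : f p < f q) : ∃ b : TopologicalSpace.Clopens K, q ∈ b ∧ ¬ p ∈ b := by
  obtain ⟨s, hs1, hs2⟩ := exists_between hpq
  obtain ⟨t, ht1, ht2⟩ := exists_between hs2
  obtain ⟨F, b, hF, hb, h1, h2⟩ := clopen_sequence T hsup f hf ht1
  obtain ⟨e, he⟩ := cauchySeq_tendsto_of_complete hb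
  have hchi0 : ∀ n, 0 ≤ chi (b n) := fun n x => by
    show 0 ≤ chi (b n) x
    by_cases h : x ∈ b n
    · rw [chi_mem h]; norm_num
    · rw [chi_not_mem h]
  have hchi1 : ∀ n, chi (b n) ≤ 1 := fun n x => by
    show chi (b n) x ≤ 1
    by_cases h : x ∈ b n
    · rw [chi_mem h]
    · rw [chi_not_mem h]; norm_num
  have he0 : 0 ≤ e := ge_of_tendsto' he fun n => T_nonneg T hsup (hchi0 n)
  have he1 : e ≤ T 1 := le_of_tendsto' he fun n => T_mono T hsup (hchi1 n)
  obtain ⟨h, rfl⟩ : e ∈ range T := by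
    rw [hr]
    refine ⟨1, one_pos, ?_⟩
    rw [one_smul, abs_of_nonneg he0]
    exact he1
  -- `h` takes only the values `0`, `1`
  have e1 : h ⊓ (1 - h) = 0 := by
    apply hinj
    rw [hinf, map_sub, map_zero]
    have l1 : Tendsto (fun n => T (chi (b n)) ⊓ (T 1 - T (chi (b n)))) atTop
        (𝓝 (T h ⊓ (T 1 - T h))) := he.inf_nhds (tendsto_const_nhds.sub he)
    refine tendsto_nhds_unique l1 ?_
    have l2 : ∀ n, T (chi (b n)) ⊓ (T 1 - T (chi (b n))) = 0 := by
      intro n
      rw [← map_sub, ← hinf]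
      have : chi (b n) ⊓ (1 - chi (b n)) = 0 := by
        ext x
        show min (chi (b n) x) (1 - chi (b n) x) = 0
        by_cases h : x ∈ b n
        · rw [chi_mem h]; norm_num
        · rw [chi_not_mem h]; norm_num
      rw [this, map_zero]
    simp only [l2]
    exact tendsto_const_nhds
  have e2 : ((f - t • 1) ⊔ 0) ⊓ (1 - h) = 0 := by
    apply hinj
    rw [hinf, hsup, map_sub, map_sub, map_smul, map_zero]
    have l1 : Tendsto (fun n => ((T (F n) - t • T 1) ⊔ 0) ⊓ (T 1 - T (chi (b n)))) atTop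
        (𝓝 (((T f - t • T 1) ⊔ 0) ⊓ (T 1 - T h))) :=
      ((hF.sub tendsto_const_nhds).sup_nhds tendsto_const_nhds).inf_nhds
        (tendsto_const_nhds.sub he)
    refine tendsto_nhds_unique l1 ?_
    have l2 : ∀ n, ((T (F n) - t • T 1) ⊔ 0) ⊓ (T 1 - T (chi (b n))) = 0 := by
      intro n
      have : ((F n - t • 1) ⊔ 0) ⊓ (1 - chi (b n)) = 0 := by
        ext x
        show min (max (F n x - t * 1) 0) (1 - chi (b n) x) = 0
        by_cases h : x ∈ b n
        · rw [chi_mem h, sub_self]
          exact min_eq_right (le_max_right _ _)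
        · rw [chi_not_mem h, sub_zero, max_eq_right, min_eq_left zero_le_one]
          by_contra h3
          exact h (h1 n x (by linarith))
      have h4 := congrArg T this
      rwa [hinf, hsup, map_sub, map_sub, map_smul, map_zero] at h4
    simp only [l2]
    exact tendsto_const_nhds
  have e3 : ((s • 1 - f) ⊔ 0) ⊓ h = 0 := by
    apply hinj
    rw [hinf, hsup, map_sub, map_smul, map_zero]
    have l1 : Tendsto (fun n => ((s • T 1 - T (F n)) ⊔ 0) ⊓ T (chi (b n))) atTop
        (𝓝 (((s • T 1 - T f) ⊔ 0) ⊓ T h)) :=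
      ((tendsto_const_nhds.sub hF).sup_nhds tendsto_const_nhds).inf_nhds he
    refine tendsto_nhds_unique l1 ?_
    have l2 : ∀ n, ((s • T 1 - T (F n)) ⊔ 0) ⊓ T (chi (b n)) = 0 := by
      intro n
      have : ((s • 1 - F n) ⊔ 0) ⊓ chi (b n) = 0 := by
        ext x
        show min (max (s * 1 - F n x) 0) (chi (b n) x) = 0
        by_cases h : x ∈ b n
        · have h3 := h2 n x h
          rw [max_eq_right (by linarith), chi_mem h]
          norm_num
        · rw [chi_not_mem h]
          exact min_eq_right (le_max_right _ _)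
      have h4 := congrArg T this
      rwa [hinf, hsup, map_sub, map_smul, map_zero] at h4
    simp only [l2]
    exact tendsto_const_nhds
  have e1' : ∀ x, h x = 0 ∨ h x = 1 := by
    intro x
    have h3 : min (h x) (1 - h x) = 0 := congrArg (fun k : C(K, ℝ) => k x) e1
    rcases min_choice (h x) (1 - h x) with h4 | h4
    · left
      rw [h4] at h3
      exact h3
    · right
      rw [h4] at h3
      linarith
  have hcl : IsClopen {x | h x = 1} := by
    refine ⟨isClosed_eq h.continuous continuous_const, ?_⟩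
    have : {x | h x = 1} = {x | (1 / 2 : ℝ) < h x} := by
      ext x
      constructor
      · intro hx
        show (1 / 2 : ℝ) < h x
        rw [show h x = 1 from hx]
        norm_num
      · intro hx
        rcases e1' x with h3 | h3
        · have h4 : (1 / 2 : ℝ) < h x := hx
          rw [h3] at h4
          norm_num at h4
        · exact h3
    rw [this]
    exact isOpen_lt continuous_const h.continuous
  refine ⟨⟨{x | h x = 1}, hcl⟩, ?_, ?_⟩
  · show h q = 1
    have h3 : min (max (f q - t * 1) 0) (1 - h q) = 0 := congrArg (fun k : C(K, ℝ) => k q) e2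
    rcases e1' q with h4 | h4
    · exfalso
      rw [h4, sub_zero] at h3
      have h5 : 0 < min (max (f q - t * 1) 0) (1 : ℝ) :=
        lt_min (lt_max_of_lt_left (by linarith)) one_pos
      linarith
    · exact h4
  · intro h3
    have h4 : h p = 1 := h3
    have h5 : min (max (s * 1 - f p) 0) (h p) = 0 := congrArg (fun k : C(K, ℝ) => k p) e3
    rw [h4] at h5
    have h6 : 0 < min (max (s * 1 - f p) 0) (1 : ℝ) :=
      lt_min (lt_max_of_lt_left (by linarith)) one_pos
    linarith

end main

/-- **Positive answer to Q1**: if the compact Hausdorff space `K` is sick, then the Stone space of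
the algebra of its clopen subsets is sick. -/
theorem result (K : Type u) [TopologicalSpace K] [CompactSpace K] [T2Space K]
    (hK : IsSick.{u, v} K) : IsSick.{u, v} (StoneSpace (TopologicalSpace.Clopens K)) := by
  obtain ⟨E, i1, i2, i3, i4, i5, i6, i7, i8, u, T, hu, hinj, hsup, hinf, h1, hr⟩ := hK
  subst h1
  let F : Submodule ℝ E := (LinearMap.range (T.comp (pull K))).topologicalClosure
  have hFc : (F : Set E) = closure (range fun g => T (pull K g)) := by
    show closure _ = closure _
    congr 1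
  have hTF : ∀ g, T (pull K g) ∈ F := fun g => by
    rw [← SetLike.mem_coe, hFc]
    exact subset_closure ⟨g, rfl⟩
  have psup : ∀ f g, pull K (f ⊔ g) = pull K f ⊔ pull K g := fun _ _ => rfl
  have pinf : ∀ f g, pull K (f ⊓ g) = pull K f ⊓ pull K g := fun _ _ => rfl
  have hFsup : ∀ ⦃x y : E⦄, x ∈ F → y ∈ F → x ⊔ y ∈ F := by
    intro x y hx hy
    rw [← SetLike.mem_coe, hFc] at hx hy ⊢
    refine map_mem_closure₂ continuous_sup hx hy ?_
    rintro _ ⟨f, rfl⟩ _ ⟨g, rfl⟩
    exact ⟨f ⊔ g, by show T _ = T _ ⊔ T _; rw [psup, hsup]⟩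
  have hFinf : ∀ ⦃x y : E⦄, x ∈ F → y ∈ F → x ⊓ y ∈ F := by
    intro x y hx hy
    rw [← SetLike.mem_coe, hFc] at hx hy ⊢
    refine map_mem_closure₂ continuous_inf hx hy ?_
    rintro _ ⟨f, rfl⟩ _ ⟨g, rfl⟩
    exact ⟨f ⊓ g, by show T _ = T _ ⊓ T _; rw [pinf, hinf]⟩
  letI lat : Lattice F := Subtype.lattice hFsup hFinf
  have cabs : ∀ x : F, ((|x| : F) : E) = |(x : E)| := fun x => rfl
  have hcomplete : CompleteSpace F :=
    (Submodule.isClosed_topologicalClosure _).completeSpace_coe
  have hadd : IsOrderedAddMonoid F :=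
    { add_le_add_left := fun a b h c => add_le_add_left (α := E) (show (a : E) ≤ b from h) c }
  refine ⟨F, inferInstance, inferInstance, lat, hadd, ⟨fun a ha b c h => ?_⟩,
    ⟨fun x y h => ?_⟩, hcomplete, inferInstance, ⟨T 1, hTF 1⟩,
    (T.comp (pull K)).codRestrict F hTF, hu, ?_, fun f g => Subtype.ext ?_,
    fun f g => Subtype.ext ?_, Subtype.ext rfl, ?_⟩
  · show (_ : E) ≤ _
    exact smul_le_smul_of_nonneg_left (α := ℝ) (β := E) h ha
  · exact i6.solid h
  · intro f g hfg
    have h2 : pull K f = pull K g := hinj (congrArg Subtype.val hfg)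
    ext x
    obtain ⟨p, rfl⟩ := surjective_toStone K x
    exact congrArg (fun k : C(K, ℝ) => k p) h2
  · show T (pull K (f ⊔ g)) = T (pull K f) ⊔ T (pull K g)
    rw [psup, hsup]
  · show T (pull K (f ⊓ g)) = T (pull K f) ⊓ T (pull K g)
    rw [pinf, hinf]
  · apply Subset.antisymm
    · rintro _ ⟨g, rfl⟩
      have h2 : T (pull K g) ∈ {y : E | ∃ r : ℝ, 0 < r ∧ |y| ≤ r • T 1} := by
        rw [← hr]
        exact ⟨_, rfl⟩
      obtain ⟨r, hr0, hr1⟩ := h2
      exact ⟨r, hr0, hr1⟩
    · rintro y ⟨r, hr0, hr1⟩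
      have h2 : (y : E) ∈ range T := by
        rw [hr]
        exact ⟨r, hr0, hr1⟩
      obtain ⟨f, hf⟩ := h2
      have hcl : T f ∈ closure (range fun g => T (pull K g)) := by
        rw [← hFc, hf]
        exact y.2
      have hfac : ∀ p q, toStone K p = toStone K q → f p = f q := by
        intro p q hpq
        by_contra hne
        rcases lt_or_gt_of_ne hne with h | h
        · obtain ⟨b, hq, hp⟩ := separate T hinj hsup hinf hr f hcl h
          rw [← toStone_apply, ← hpq, toStone_apply] at hq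
          exact hp hq
        · obtain ⟨b, hq, hp⟩ := separate T hinj hsup hinf hr f hcl h
          rw [← toStone_apply, hpq, toStone_apply] at hq
          exact hp hq
      have hquot : IsQuotientMap (toStone K) :=
        IsQuotientMap.of_surjective_continuous (surjective_toStone K) (continuous_toStone K)
      let π : C(K, StoneSpace (TopologicalSpace.Clopens K)) := ⟨toStone K, continuous_toStone K⟩
      have hπ : IsQuotientMap π := hquot
      refine ⟨hπ.lift f fun p q h => hfac p q h, Subtype.ext ?_⟩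
      show T (pull K _) = (y : E)
      rw [← hf]
      congr 1
      ext p
      exact congrArg (fun k : C(K, ℝ) => k p) (hπ.lift_comp f fun p q h => hfac p q h)

end Pool.Agent.Results.MP_013c33_an.StoneSpaceSick
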